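import Pool.Agent.H30.FQ.Targets

/-!
# CAA, W1I
-/

set_option autoImplicit false

namespace Pool.Agent.H62.FQ

open Pool.Agent.H30.FQ

lemma D_num {k K : Type} [Field k] [Field K] [Algebra k K] (D : Derivation k K K) (n : ℕ)
    (x : K) : D ((n : K) * x) = (n : K) * D x := by
  have := D.map_smul (n : k) x
  simpa [Algebra.smul_def] using this

/-- CAA. -/
theorem caa : T_CAA := by
  intro k K _ _ _ _ D l e e1 e2 κ κ1 κ2 Q S P he1 he2 hk1 hk2 hF h1 h2 h3
  haveI : CharZero K := charZero_of_injective_algebraMap (algebraMap k K).injective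
  have hd : 81 * D e + 846 * D κ = 0 := by
    have := congrArg D h1
    rw [map_add, map_zero] at this
    have e1 := D_num D 81 e
    have e2 := D_num D 846 κ
    push_cast at e1 e2
    rw [e1, e2] at this
    exact this
  have h1' : 81 * e1 + 846 * κ1 = 0 := by
    rw [he1, hk1]
    unfold nab
    linear_combination hd - 2 * l * h1
  have k10 : κ1 = 0 := by linear_combination (61 / 4950) * h1' - (84 / 275) * h2
  have e10 : e1 = 0 := by linear_combination (1 / 81) * h1' - (846 / 81) * k10
  have e20 : e2 = 0 := by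
    rw [he2, e10]; unfold nab; simp
  have k20 : κ2 = 0 := by
    rw [hk2, k10]; unfold nab; simp
  have hee : e = -(94 / 9) * κ := by linear_combination (1 / 81) * h1
  have hQ : Q = -(49 / 81) * κ ^ 2 := by
    rw [hee, e20, k20] at h3
    linear_combination (1 / 8) * h3
  refine ⟨k10, hee, e10, hQ, ?_⟩
  unfold eqF at hF
  rw [hee, e10, e20, k10, hQ] at hF
  linear_combination (63 / 40) * hF

/-- W1I. -/
theorem w1i : T_W1I := by
  intro k K _ _ _ _ D p q a b X Y hX hY hXY hu0 ha dp dq hab hu hpq h1 h2
  haveI : CharZero K := charZero_of_injective_algebraMap (algebraMap k K).injective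
  have hne : p - q ≠ 0 := by
    intro h
    have hpq' : p = q := by linear_combination h
    subst hpq'
    have : a = b := by linear_combination dq - dp
    subst this
    have : a * (X + Y) = 0 := by linear_combination hab
    exact (mul_ne_zero ha hXY) this
  have h3 : a - b = 3 * (p + q) * (p - q) := by
    apply mul_left_cancel₀ hne
    linear_combination h2
  have ha' : a = 3 * p ^ 2 := by linear_combination (1 / 2) * h1 + (1 / 2) * h3 + 3 * hpq
  have hb' : b = 3 * q ^ 2 := by linear_combination (1 / 2) * h1 - (1 / 2) * h3 + 3 * hpq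
  have hp : p ≠ 0 := by
    rintro rfl
    have : (16 : K) * (0 * q) = 1 := by rw [hpq]; norm_num
    simp at this
  obtain ⟨g, hg⟩ : ∃ g : K, g = 4 * p := ⟨_, rfl⟩
  have hg0 : g ≠ 0 := by rw [hg]; exact mul_ne_zero (by norm_num) hp
  have hpg : p = g / 4 := by rw [hg]; ring
  have hqg : q = 1 / (4 * g) := by
    rw [hg]
    field_simp
    linear_combination 16 * hpq
  have hYX : Y = -g ^ 4 * X := by
    rw [ha', hb', hpg, hqg] at hab
    field_simp at hab
    linear_combination (1 / 3) * hab
  have hXY' : X * (1 - g ^ 4) ≠ 0 := by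
    intro h
    apply hXY
    rw [hYX]
    linear_combination h
  have hu' : X + Y - 1 = X * (1 - g ^ 2) * (1 + g) ^ 2 / 2 := by
    rw [← hu, hYX, hpg, hqg]
    field_simp
    ring
  have hX1 : X * (1 - g ^ 2) * (1 - g) ^ 2 = 2 := by
    rw [hYX] at hu'
    linear_combination 2 * hu'
  have hg1 : 1 - g ≠ 0 := by
    intro h
    rw [h] at hX1
    norm_num at hX1
  have hg2 : 1 + g ≠ 0 := by
    intro h
    have : (1 - g ^ 2) = 0 := by linear_combination (1 - g) * h
    rw [this] at hX1
    norm_num at hX1
  have hXe : X = 2 / ((1 - g) ^ 3 * (1 + g)) := by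
    rw [eq_div_iff (mul_ne_zero (pow_ne_zero 3 hg1) hg2)]
    linear_combination hX1
  refine ⟨(1 + g) / (1 - g), ?_, ?_, ?_⟩
  · rw [hu', hXe]
    field_simp
    ring
  · rw [hXe]
    field_simp
    ring
  · rw [hYX, hXe]
    field_simp
    ring

end Pool.Agent.H62.FQ
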