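import Pool.Agent.H30.FQ.Targets
import Pool.Agent.H62.FQ.CAA

/-!
# SYS
-/

set_option autoImplicit false

namespace Pool.Agent.H62.FQ

open Pool.Agent.H30.FQ

section

variable {k K : Type} [Field k] [Field K] [Algebra k K]

lemma D_div (D : Derivation k K K) (a b : K) (hb : b ≠ 0) :
    D (a / b) = (D a * b - a * D b) / b ^ 2 := by
  have h : D a = D (a / b * b) := by rw [div_mul_cancel₀ a hb]
  rw [D.leibniz] at h
  simp only [smul_eq_mul] at h
  rw [h]
  field_simp
  ring

lemma D_mul (D : Derivation k K K) (a b : K) : D (a * b) = D a * b + a * D b := by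
  rw [D.leibniz]
  simp only [smul_eq_mul]
  ring

end

/-- SYS. -/
theorem sys : T_SYS := by
  intro k K _ _ _ _ D X Y hX hY hu hG
  haveI : CharZero K := charZero_of_injective_algebraMap (algebraMap k K).injective
  have hD16 : ∀ x : K, D (16 * x) = 16 * D x := fun x => by
    have := D_num D 16 x
    push_cast at this
    exact this
  have hD4 : ∀ x : K, D (4 * x) = 4 * D x := fun x => by
    have := D_num D 4 x
    push_cast at this
    exact this
  obtain ⟨G, hGd⟩ : ∃ G : K, G = gg D X := ⟨_, rfl⟩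
  have hG0 : G ≠ 0 := by rw [hGd]; exact hG
  have hDDX : D (D X) = G + D X := by rw [hGd]; unfold gg; ring
  have h1 : D (1 : K) = 0 := D.map_one_eq_zero
  have hDDY : D (D Y) = -G + D Y := by
    have := congrArg D hu
    rw [map_add, map_sub, map_add, h1] at this
    linear_combination this - hDDX
  obtain ⟨dG, hdG⟩ : ∃ dG : K, dG = D G := ⟨_, rfl⟩
  have hQd : QQ D X Y = G ^ 2 / (16 * X * Y) := by rw [hGd]; rfl
  have hQ0 : QQ D X Y ≠ 0 := by
    rw [hQd]
    exact div_ne_zero (pow_ne_zero 2 hG0) (mul_ne_zero (mul_ne_zero (by norm_num) hX) hY)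
  have hDQ : D (QQ D X Y) = (2 * G * dG * X * Y - G ^ 2 * (D X * Y + X * D Y)) /
      (16 * X ^ 2 * Y ^ 2) := by
    rw [hQd, D_div D _ _ (mul_ne_zero (mul_ne_zero (by norm_num) hX) hY), pow_two G, D_mul,
      mul_assoc (16 : K) X Y, hD16, D_mul, ← hdG]
    field_simp
    ring
  have hll : ll D X Y = (2 * dG / G - D X / X - D Y / Y) / 4 := by
    unfold ll
    rw [hDQ, hQd]
    field_simp
    ring
  obtain ⟨dl, hdl⟩ : ∃ dl : K, dl = D (ll D X Y) := ⟨_, rfl⟩
  have hD8 : D ((1 - ll D X Y) / 8) = -dl / 8 := by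
    have h8 : (8 : K) ≠ 0 := by norm_num
    have hh : D (8 : K) = 0 := by
      have := D.map_natCast 8
      push_cast at this
      exact this
    rw [D_div D _ _ h8, map_sub, h1, hh, ← hdl]
    field_simp
    ring
  have e1 : pp D X Y = D X / (4 * X) - (1 - ll D X Y) / 8 := rfl
  have e2 : qq D X Y = D Y / (4 * Y) - (1 - ll D X Y) / 8 := rfl
  have e3 : aa D X = G / (4 * X) := by rw [hGd]; rfl
  have e4 : bb D X Y = -G / (4 * Y) := by rw [hGd]; rfl
  have e5 : kk D X Y = (1 - ll D X Y ^ 2 + 2 * dl) / 16 := by rw [hdl]; rfl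
  have h4X : (4 * X : K) ≠ 0 := mul_ne_zero (by norm_num) hX
  have h4Y : (4 * Y : K) ≠ 0 := mul_ne_zero (by norm_num) hY
  refine ⟨⟨?_, ?_, ?_, ?_, ?_, ?_⟩, ?_, ?_, hQ0, ?_, ?_⟩
  · rw [e5, e3, e1, map_sub, hD8, D_div D _ _ h4X, hD4, hDDX]
    generalize ll D X Y = L
    field_simp
    ring
  · rw [e5, e4, e2, map_sub, hD8, D_div D _ _ h4Y, hD4, hDDY]
    generalize ll D X Y = L
    field_simp
    ring
  · rw [e1, e2, e3, D_div D _ _ h4X, hD4, ← hdG, hll]
    field_simp
    ring
  · rw [e1, e2, e4, D_div D _ _ h4Y, hD4, map_neg, ← hdG, hll]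
    field_simp
    ring
  · rw [e3, e4, hQd]
    field_simp
    norm_num
  · rw [e5, ← hdl]
    ring
  · rw [e3, e4]
    field_simp
    ring
  · rw [e3]
    exact div_ne_zero hG0 h4X
  · rw [e1]
    field_simp
    ring
  · rw [e2]
    field_simp
    ring

end Pool.Agent.H62.FQ
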