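import Pool.Agent.H30.FQ.Targets

/-!
# SQI
-/

set_option autoImplicit false

namespace Pool.Agent.H62.FQ

open Pool.Agent.H30.FQ Polynomial

/-- SQI. -/
theorem sqi : T_SQI := by
  intro k K _ _ _ _ D l e e1 κ Q μ ν hQ he1 hκ hμ hid
  haveI : CharZero K := charZero_of_injective_algebraMap (algebraMap k K).injective
  have H : ∀ x : K, (3 * x ^ 3 - (78 / 7) * x * (μ * x + ν) - (3 / 28 * e + 3 / 2 * κ) * x -
      e1 / 32) ^ 2 = (x ^ 2 - 4 * (μ * x + ν)) *
        (((1 / 7) * (e + 21 * x ^ 2 - 36 * (μ * x + ν))) ^ 2 + 4 * Q) := by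
    intro x
    have := congrArg (eval x) hid
    simpa using this
  clear hid hμ he1
  have h0 := H 0
  have h1 := H 1
  have h2 := H (-1)
  have h3 := H 2
  have h4 := H (-2)
  -- the division of `Z` by `T0`
  obtain ⟨r, hr⟩ : ∃ r : K, r = 24 / 7 * μ ^ 2 + 12 * ν -
    (78 / 7 * ν + 3 / 28 * e + 3 / 2 * κ) := ⟨_, rfl⟩
  obtain ⟨t, ht⟩ : ∃ t : K, t = 24 / 7 * μ * ν - e1 / 32 := ⟨_, rfl⟩
  have hκ' : κ = -(20 / 7) * μ ^ 2 - e / 6 := by linear_combination (1 / 42) * hκ
  have hB2 : 6 * (e - 36 * ν) / 7 + (36 / 7) ^ 2 * μ ^ 2 - ((6 / 7 * μ) ^ 2 -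
      24 * μ * (6 / 7 * μ) - 36 * ν) - 6 * r = 0 := by
    rw [hr]
    linear_combination (-1 / 24) * (h3 - 4 * h1 + 6 * h0 - 4 * h2 + h4)
  have hB1 : 2 * (-(36 / 7) * μ) * (e - 36 * ν) / 7 + 4 * μ * (6 / 7 * μ) ^ 2 +
      24 * ν * (6 / 7 * μ) - 2 * (3 * t + 6 / 7 * μ * r) = 0 := by
    rw [hr] at hB2
    rw [ht, hr]
    linear_combination (-1 / 12) * (h3 - 2 * h1 + 2 * h2 - h4) + 4 * μ * hB2
  have hB0 : ((e - 36 * ν) / 7) ^ 2 + 4 * Q + 4 * ν * (6 / 7 * μ) ^ 2 -
      2 * (6 / 7 * μ) * t = r ^ 2 := by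
    rw [ht, hr] at *
    linear_combination (-1 / 24) * (-h3 + 16 * h1 - 30 * h0 + 16 * h2 - h4) + 4 * μ * hB1 +
      4 * ν * hB2
  have hrt : 2 * r * t + 4 * μ * r ^ 2 = 0 := by
    rw [ht, hr] at *
    linear_combination (1 / 12) * (-h3 + 8 * h1 - 8 * h2 + h4) - 4 * μ * hB0 - 4 * ν * hB1
  have ht2 : t ^ 2 + 4 * ν * r ^ 2 = 0 := by
    rw [ht, hr] at *
    linear_combination h0 - 4 * ν * hB0
  by_cases hr0 : r = 0
  · have ht0 : t = 0 := by
      rw [hr0] at ht2
      have : t ^ 2 = 0 := by linear_combination ht2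
      exact pow_eq_zero_iff (two_ne_zero) |>.1 this
    have hν : ν = -9 * μ ^ 2 - e / 6 := by
      rw [hr0] at hB2
      linear_combination (7 / 36) * hB2
    have hμ0 : μ * (50 * ν + 2 * μ ^ 2 - e) = 0 := by
      rw [hr0, ht0] at hB1
      linear_combination (49 / 72) * hB1
    rcases mul_eq_zero.1 hμ0 with hm | hm
    · rw [hm] at hκ' hν ht
      refine ⟨hm, ?_, ?_, ?_, ?_⟩
      · linear_combination hν - hκ'
      · linear_combination 6 * hκ'
      · rw [ht0] at ht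
        linear_combination 32 * ht
      · rw [hr0, ht0, hm] at hB0
        have he : e = -6 * κ := by linear_combination 6 * hκ'
        have hn : ν = κ := by linear_combination hν - hκ'
        rw [he, hn] at hB0
        linear_combination (1 / 4) * hB0
    · exfalso
      apply hQ
      have he : e = -48 * μ ^ 2 := by
        rw [hν] at hm
        linear_combination (-3 / 28) * hm
      have hn : ν = -μ ^ 2 := by rw [hν, he]; ring
      rw [hr0, ht0, hn, he] at hB0
      linear_combination (1 / 4) * hB0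
  · exfalso
    apply hQ
    have htr : t = -2 * μ * r := by
      apply mul_left_cancel₀ hr0
      linear_combination (1 / 2) * hrt
    have hn : ν = -μ ^ 2 := by
      apply mul_left_cancel₀ (pow_ne_zero 2 hr0)
      rw [htr] at ht2
      linear_combination (1 / 4) * ht2
    have hr' : r = (e + 48 * μ ^ 2) / 7 := by
      rw [hr, hn, hκ']
      ring
    rw [htr, hn, hr'] at hB0
    linear_combination (1 / 4) * hB0

end Pool.Agent.H62.FQ
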